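import Mathlib

namespace Pool.Agent.H.MP_a699c4_gt

open scoped ContDiff

def IsSphereGeodesic {F : Type*} [NormedAddCommGroup F] [InnerProductSpace ℝ F] (γ : ℝ → F) :
    Prop :=
  ContDiff ℝ 2 γ ∧ (∀ t, ‖γ t‖ = 1) ∧
    ∀ t w, inner ℝ (γ t) w = 0 → inner ℝ (deriv (deriv γ) t) w = 0

def IsSphereHarmonic {E F : Type*} [NormedAddCommGroup E] [InnerProductSpace ℝ E]
    [FiniteDimensional ℝ E] [NormedAddCommGroup F] [InnerProductSpace ℝ F] (φ : E → F) : Prop :=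
  ContDiff ℝ ∞ φ ∧ (∀ x, ‖x‖ = 1 → ‖φ x‖ = 1) ∧
    ∀ x, ‖x‖ = 1 → ∀ w, inner ℝ (φ x) w = 0 →
      inner ℝ (Laplacian.laplacian (fun y : E => φ (‖y‖⁻¹ • y)) x) w = 0

end Pool.Agent.H.MP_a699c4_gt
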