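import Pool.Agent.H.MP_a699c4_gt.Defs

namespace Pool.Agent.H.MP_a699c4_gt

open scoped ContDiff RealInnerProductSpace
open Real Filter Topology

theorem antipode {F : Type*} [NormedAddCommGroup F] [InnerProductSpace ℝ F] {γ : ℝ → F}
    (h : IsSphereGeodesic γ) (hne : ∃ s t, γ s ≠ γ t) : ∃ t, γ t = -γ 0 := by
  obtain ⟨hc, hn, hg⟩ := h
  have d1 : ∀ t, HasDerivAt γ (deriv γ t) t := fun t =>
    (hc.differentiable (by norm_num) t).hasDerivAt
  have hc1 : ContDiff ℝ 1 (deriv γ) := by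
    have : ContDiff ℝ (1 + 1) γ := by simpa [one_add_one_eq_two] using hc
    exact this.deriv'
  have d2 : ∀ t, HasDerivAt (deriv γ) (deriv (deriv γ) t) t := fun t =>
    (hc1.differentiable (by norm_num) t).hasDerivAt
  have n1 : ∀ t, ⟪γ t, γ t⟫ = 1 := fun t => by rw [real_inner_self_eq_norm_sq, hn]; norm_num
  have o1 : ∀ t, ⟪γ t, deriv γ t⟫ = 0 := by
    intro t
    have a := (d1 t).inner ℝ (d1 t)
    have b : HasDerivAt (fun t => ⟪γ t, γ t⟫) 0 t := by
      simp only [n1]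
      exact hasDerivAt_const _ _
    have := a.unique b
    rw [real_inner_comm (γ t) (deriv γ t)] at this
    linarith
  have o2 : ∀ t, ⟪deriv γ t, deriv γ t⟫ = ⟪deriv γ 0, deriv γ 0⟫ := by
    intro t
    have a : ∀ t, HasDerivAt (fun t => ⟪deriv γ t, deriv γ t⟫) 0 t := by
      intro t
      refine ((d2 t).inner ℝ (d2 t)).congr_deriv ?_
      rw [real_inner_comm, hg t _ (o1 t)]
      simp
    exact is_const_of_deriv_eq_zero (fun t => (a t).differentiableAt) (fun t => (a t).deriv) t 0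
  set c := ‖deriv γ 0‖ with hcd
  have o2' : ∀ t, ⟪deriv γ t, deriv γ t⟫ = c ^ 2 := fun t => by
    rw [o2, real_inner_self_eq_norm_sq]
  have o3 : ∀ t, ⟪γ t, deriv (deriv γ) t⟫ = -c ^ 2 := by
    intro t
    have a := (d1 t).inner ℝ (d2 t)
    have b : HasDerivAt (fun t => ⟪γ t, deriv γ t⟫) 0 t := by
      simp only [o1]
      exact hasDerivAt_const _ _
    have := a.unique b
    rw [o2'] at this
    linarith
  have o4 : ∀ t, deriv (deriv γ) t = -(c ^ 2) • γ t := by
    intro t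
    have a : ⟪γ t, deriv (deriv γ) t + (c ^ 2) • γ t⟫ = 0 := by
      rw [inner_add_right, inner_smul_right, o3, n1]
      ring
    have b := hg t _ a
    have : ⟪deriv (deriv γ) t + (c ^ 2) • γ t, deriv (deriv γ) t + (c ^ 2) • γ t⟫ = 0 := by
      rw [inner_add_left, b, real_inner_smul_left, a]
      ring
    rw [inner_self_eq_zero] at this
    rw [neg_smul]
    exact eq_neg_of_add_eq_zero_left this
  have hc0 : c ≠ 0 := by
    intro h0
    obtain ⟨s, t, hst⟩ := hne
    apply hst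
    refine is_const_of_deriv_eq_zero (fun t => (d1 t).differentiableAt) (fun t => ?_) s t
    have := o2' t
    rw [h0] at this
    simpa using this
  let w : ℝ → F := fun t => γ t - cos (c * t) • γ 0 - (sin (c * t) / c) • deriv γ 0
  let w1 : ℝ → F := fun t => deriv γ t + (c * sin (c * t)) • γ 0 - cos (c * t) • deriv γ 0
  have hl : ∀ t, HasDerivAt (fun t => c * t) c t := fun t => by
    simpa using (hasDerivAt_id t).const_mul c
  have dw : ∀ t, HasDerivAt w (w1 t) t := by
    intro t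
    refine (((d1 t).sub ((hl t).cos.smul_const (γ 0))).sub
      (((hl t).sin.div_const c).smul_const (deriv γ 0))).congr_deriv ?_
    simp only [w1]
    rw [mul_div_assoc, div_self hc0]
    module
  have dw1 : ∀ t, HasDerivAt w1 (-(c ^ 2) • w t) t := by
    intro t
    refine (((d2 t).add (((hl t).sin.const_mul c).smul_const (γ 0))).sub
      ((hl t).cos.smul_const (deriv γ 0))).congr_deriv ?_
    simp only [w, o4]
    have : sin (c * t) * c = c ^ 2 * (sin (c * t) / c) := by field_simp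
    rw [neg_mul, this]
    module
  have en : ∀ t, HasDerivAt (fun t => ⟪w1 t, w1 t⟫ + c ^ 2 * ⟪w t, w t⟫) 0 t := by
    intro t
    refine (((dw1 t).inner ℝ (dw1 t)).add (((dw t).inner ℝ (dw t)).const_mul (c ^ 2))).congr_deriv ?_
    rw [real_inner_smul_left, real_inner_smul_right, real_inner_comm (w t) (w1 t)]
    ring
  have e0 := is_const_of_deriv_eq_zero (fun t => (en t).differentiableAt) (fun t => (en t).deriv)
    (π / c) 0
  have z1 : w 0 = 0 := by simp [w]
  have z2 : w1 0 = 0 := by simp [w1]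
  rw [z1, z2] at e0
  simp only [inner_zero_left, mul_zero, add_zero] at e0
  have p1 : 0 ≤ ⟪w1 (π / c), w1 (π / c)⟫ := real_inner_self_nonneg
  have p2 : 0 ≤ ⟪w (π / c), w (π / c)⟫ := real_inner_self_nonneg
  have p3 : 0 < c ^ 2 := by positivity
  have : ⟪w (π / c), w (π / c)⟫ = 0 := by nlinarith
  rw [inner_self_eq_zero] at this
  refine ⟨π / c, ?_⟩
  have e : c * (π / c) = π := by field_simp
  simp only [w, e, cos_pi, sin_pi, zero_div, zero_smul, sub_zero, neg_smul, one_smul] at this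
  exact eq_neg_of_add_eq_zero_left (by simpa using this)

theorem second {E : Type*} [NormedAddCommGroup E] [NormedSpace ℝ E] {f : E → ℝ} {x : E}
    (hf : ContDiffAt ℝ 2 f x) (v : E) :
    iteratedFDeriv ℝ 2 f x ![v, v] = deriv (deriv fun t : ℝ => f (x + t • v)) 0 := by
  rw [iteratedFDeriv_two_apply]
  have hl : ∀ t : ℝ, HasDerivAt (fun t : ℝ => x + t • v) v t := fun t => by
    simpa using ((hasDerivAt_id t).smul_const v).const_add x
  have ht : Tendsto (fun t : ℝ => x + t • v) (𝓝 0) (𝓝 x) := by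
    simpa using (hl 0).continuousAt.tendsto
  have e : deriv (fun t : ℝ => f (x + t • v)) =ᶠ[𝓝 0] fun t => fderiv ℝ f (x + t • v) v := by
    filter_upwards [ht.eventually (hf.eventually (by simp))] with t h
    exact ((h.differentiableAt (by norm_num)).hasFDerivAt.comp_hasDerivAt t (hl t)).deriv
  rw [e.deriv_eq]
  have h1 : ContDiffAt ℝ 1 (fderiv ℝ f) x := hf.fderiv_right (by norm_num)
  have h2 : HasFDerivAt (fderiv ℝ f) (fderiv ℝ (fderiv ℝ f) x) (x + (0 : ℝ) • v) := by
    simpa using (h1.differentiableAt (by norm_num)).hasFDerivAt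
  have h3 := (h2.comp_hasDerivAt (0 : ℝ) (hl 0)).clm_apply (hasDerivAt_const (0 : ℝ) v)
  have h4 := h3.deriv
  simp only [Function.comp_def, map_zero, add_zero] at h4
  simpa using h4.symm

theorem quot2 (A B C D k e : ℝ) :
    deriv (deriv fun t : ℝ => k * ((A + B * t + C * t ^ 2) / (1 + D * t + t ^ 2)) + e) 0 =
      k * (2 * C - 2 * B * D - 2 * A + 2 * A * D ^ 2) := by
  have hN : ∀ t : ℝ, HasDerivAt (fun t : ℝ => A + B * t + C * t ^ 2) (B + 2 * C * t) t := by
    intro t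
    refine ((((hasDerivAt_id t).const_mul B).const_add A).add
      ((hasDerivAt_pow 2 t).const_mul C)).congr_deriv ?_
    simp
    ring
  have hD : ∀ t : ℝ, HasDerivAt (fun t : ℝ => 1 + D * t + t ^ 2) (D + 2 * t) t := by
    intro t
    refine ((((hasDerivAt_id t).const_mul D).const_add 1).add (hasDerivAt_pow 2 t)).congr_deriv ?_
    simp
  have hne : ∀ᶠ t : ℝ in 𝓝 0, 1 + D * t + t ^ 2 ≠ 0 :=
    (hD 0).continuousAt.eventually_ne (by simp)
  have e1 : deriv (fun t : ℝ => k * ((A + B * t + C * t ^ 2) / (1 + D * t + t ^ 2)) + e) =ᶠ[𝓝 0]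
      fun t => k * (((B + 2 * C * t) * (1 + D * t + t ^ 2) - (A + B * t + C * t ^ 2) * (D + 2 * t))
        / (1 + D * t + t ^ 2) ^ 2) := by
    filter_upwards [hne] with t ht
    exact ((((hN t).div (hD t) ht).const_mul k).add_const e).deriv
  rw [e1.deriv_eq]
  have a1 : HasDerivAt (fun t : ℝ => B + 2 * C * t) (2 * C) 0 := by
    simpa using ((hasDerivAt_id (0 : ℝ)).const_mul (2 * C)).const_add B
  have a2 : HasDerivAt (fun t : ℝ => D + 2 * t) 2 0 := by
    simpa using ((hasDerivAt_id (0 : ℝ)).const_mul 2).const_add D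
  have := ((((a1.mul (hD 0)).sub ((hN 0).mul a2)).div ((hD 0).pow 2) (by simp)).const_mul k).deriv
  refine Eq.trans this ?_
  simp
  left
  ring

abbrev E3 := EuclideanSpace ℝ (Fin 3)
abbrev E9 := EuclideanSpace ℝ (Fin 3 × Fin 3)

noncomputable def ver (x : E3) : E9 :=
  WithLp.toLp 2 fun p => (√6)⁻¹ * (3 * (x p.1 * x p.2) - if p.1 = p.2 then 1 else 0)

theorem ver_smooth : ContDiff ℝ ∞ ver := by
  refine contDiff_euclidean.2 fun p => ?_
  simp only [ver]
  fun_prop

theorem nsq (x : E3) : ‖x‖ ^ 2 = x 0 ^ 2 + x 1 ^ 2 + x 2 ^ 2 := by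
  rw [EuclideanSpace.real_norm_sq_eq, Fin.sum_univ_three]

theorem s6 : (√6)⁻¹ ^ 2 = (1 / 6 : ℝ) := by
  rw [inv_pow, sq_sqrt (by norm_num)]
  norm_num

theorem ver_norm (x : E3) (hx : ‖x‖ = 1) : ‖ver x‖ = 1 := by
  have h := nsq x
  rw [hx] at h
  have : ‖ver x‖ ^ 2 = 1 := by
    rw [EuclideanSpace.real_norm_sq_eq, Fintype.sum_prod_type]
    simp only [Fin.sum_univ_three, ver, mul_pow, s6]
    simp
    linear_combination (-(3 / 2) * (x 0 ^ 2 + x 1 ^ 2 + x 2 ^ 2) - 1 / 2) * h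
  have h0 := norm_nonneg (ver x)
  nlinarith

def QQ (w : E9) (y z : E3) : ℝ := ∑ p, w p * (y p.1 * z p.2)

theorem inner_ver (w : E9) (y : E3) : ⟪ver y, w⟫ =
    (√6)⁻¹ * (3 * QQ w y y - (w (0, 0) + w (1, 1) + w (2, 2))) := by
  simp only [PiLp.inner_apply, ver, QQ, Fintype.sum_prod_type, Fin.sum_univ_three]
  simp
  ring

theorem ver_harm : IsSphereHarmonic ver := by
  refine ⟨ver_smooth, ver_norm, fun x hx w hw => ?_⟩
  have hx0 : x ≠ 0 := by
    rintro rfl
    simp at hx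
  have hs : ContDiffAt ℝ 2 (fun y : E3 => ver (‖y‖⁻¹ • y)) x :=
    (ver_smooth.of_le (by norm_cast)).contDiffAt.comp x
      (((contDiffAt_norm ℝ hx0).inv (by simp [hx])).smul contDiffAt_id)
  have key := hs.laplacian_CLM_comp_left (l := innerSL ℝ w)
  rw [real_inner_comm]
  refine Eq.trans key.symm ?_
  have hs' : ContDiffAt ℝ 2 (innerSL ℝ w ∘ fun y : E3 => ver (‖y‖⁻¹ • y)) x :=
    (innerSL ℝ w).contDiff.contDiffAt.comp x hs
  rw [InnerProductSpace.laplacian_eq_iteratedFDeriv_orthonormalBasis _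
    (EuclideanSpace.basisFun (Fin 3) ℝ)]
  have h := nsq x
  rw [hx] at h
  have line : ∀ v : E3, ‖v‖ = 1 →
      (fun t : ℝ => (innerSL ℝ w ∘ fun y : E3 => ver (‖y‖⁻¹ • y)) (x + t • v)) =
      fun t => (3 * (√6)⁻¹) * ((QQ w x x + (QQ w x v + QQ w v x) * t + QQ w v v * t ^ 2) /
        (1 + (2 * ⟪x, v⟫) * t + t ^ 2)) + -((√6)⁻¹ * (w (0, 0) + w (1, 1) + w (2, 2))) := by
    intro v hv
    funext t
    have n1 : ‖x + t • v‖ ^ 2 = 1 + (2 * ⟪x, v⟫) * t + t ^ 2 := by
      rw [norm_add_sq_real, hx, norm_smul, hv, real_inner_smul_right]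
      simp
      ring
    simp only [Function.comp_apply, innerSL_apply_apply]
    rw [real_inner_comm, inner_ver, ← n1]
    simp only [QQ, Fintype.sum_prod_type, Fin.sum_univ_three, PiLp.smul_apply, PiLp.add_apply,
      smul_eq_mul]
    rw [div_eq_mul_inv, ← inv_pow]
    ring
  simp only [second hs', Fin.sum_univ_three]
  rw [line _ (by simp), line _ (by simp), line _ (by simp), quot2, quot2, quot2]
  rw [inner_ver] at hw
  have h6 : (√6)⁻¹ ≠ 0 := by positivity
  have hw' := (mul_eq_zero.1 hw).resolve_left h6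
  simp only [QQ, Fintype.sum_prod_type, Fin.sum_univ_three] at hw' ⊢
  simp [EuclideanSpace.inner_single_right]
  linear_combination (-6 * (√6)⁻¹) * hw' - (24 * (√6)⁻¹) * (w (0, 0) * (x 0 * x 0) +
    w (0, 1) * (x 0 * x 1) + w (0, 2) * (x 0 * x 2) + w (1, 0) * (x 1 * x 0) +
    w (1, 1) * (x 1 * x 1) + w (1, 2) * (x 1 * x 2) + w (2, 0) * (x 2 * x 0) +
    w (2, 1) * (x 2 * x 1) + w (2, 2) * (x 2 * x 2)) * h

theorem ver_det (x : E3) (hx : ‖x‖ = 1) :
    0 < (Matrix.of fun i j => ver x (i, j)).det := by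
  have h := nsq x
  rw [hx] at h
  have : (Matrix.of fun i j => ver x (i, j)).det = 2 * (√6)⁻¹ ^ 3 := by
    rw [Matrix.det_fin_three]
    simp [ver]
    linear_combination (-3 * (√6)⁻¹ ^ 3) * h
  rw [this]
  positivity

theorem main : ∃ V : Set E9, IsOpen V ∧
    (∀ γ : ℝ → E9, IsSphereGeodesic γ → (∀ t, γ t ∈ V) → ∀ s t, γ s = γ t) ∧
    ∃ φ : E3 → E9, IsSphereHarmonic φ ∧ (∀ x, ‖x‖ = 1 → φ x ∈ V) ∧
      ∃ x y, ‖x‖ = 1 ∧ ‖y‖ = 1 ∧ φ x ≠ φ y := by
  refine ⟨{A | 0 < (Matrix.of fun i j => A (i, j)).det}, ?_, ?_, ver, ver_harm, ver_det,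
    EuclideanSpace.single 0 1, EuclideanSpace.single 1 1, by simp, by simp, ?_⟩
  · refine isOpen_lt continuous_const (Continuous.matrix_det ?_)
    refine continuous_pi fun i => continuous_pi fun j => ?_
    simp only [Matrix.of_apply]
    fun_prop
  · intro γ hγ hV
    by_contra hne
    push Not at hne
    obtain ⟨t, ht⟩ := antipode hγ hne
    have h1 := hV t
    have h2 := hV 0
    rw [ht] at h1
    simp only [Set.mem_setOf_eq, Matrix.det_fin_three, Matrix.of_apply, PiLp.neg_apply] at h1 h2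
    linarith
  · intro h
    have := congrArg (fun A : E9 => A (0, 0)) h
    simp [ver] at this
    have h6 : 0 < (√6)⁻¹ := by positivity
    linarith

end Pool.Agent.H.MP_a699c4_gt
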